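import Mathlib

/-!
# Bishop's question on the separating set for a point of a Riemannian manifold

`M = ℝ × ℝ × S¹` with coordinates `(x, z, θ)` and the metric `dx² + dz² / (1 + x²) + dθ²`;
`N` is the point `o = (0, 0, 0)`.
-/

open Set Topology MeasureTheory
open scoped ContDiff

namespace Pool.Agent.Results.MP_402458_gt.PointCase

/-- The 3-manifold `M = ℝ × ℝ × S¹`, with `S¹ = ℝ / 2πℤ` and coordinates `(x, z, θ)`. -/
abbrev M : Type := ℝ × ℝ × Real.Angle

/-- Tangent vectors in the coordinates `(x, z, θ)`. -/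
abbrev V : Type := ℝ × ℝ × ℝ

/-- The norm of the tangent vector `v` at a point with first coordinate `x`, for the Riemannian
metric `dx² + dz² / (1 + x²) + dθ²`. -/
noncomputable def nrm (x : ℝ) (v : V) : ℝ :=
  Real.sqrt (v.1 ^ 2 + v.2.1 ^ 2 / (1 + x ^ 2) + v.2.2 ^ 2)

/-- A parametrised curve in `M`; `θ` is a lift of the angular coordinate. -/
structure Crv where
  /-- first coordinate -/
  x : ℝ → ℝ
  /-- second coordinate -/
  z : ℝ → ℝ
  /-- lift of the angular coordinate -/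
  θ : ℝ → ℝ

/-- The point of `M` at time `t`. -/
noncomputable def Crv.pt (c : Crv) (t : ℝ) : M := (c.x t, c.z t, (c.θ t : Real.Angle))

/-- The velocity at time `t`. -/
noncomputable def Crv.vel (c : Crv) (t : ℝ) : V := (deriv c.x t, deriv c.z t, deriv c.θ t)

/-- The curve is of class `C^n`. -/
def Crv.OfClass (c : Crv) (n : ℕ∞) : Prop :=
  ContDiff ℝ n c.x ∧ ContDiff ℝ n c.z ∧ ContDiff ℝ n c.θ

/-- The Riemannian distance: the infimum of the lengths of the `C¹` curves from `P` to `Q`. -/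
noncomputable def dM (P Q : M) : ℝ :=
  sInf {L : ℝ | ∃ c : Crv, c.OfClass 1 ∧ c.pt 0 = P ∧ c.pt 1 = Q ∧
    ∫ t in (0 : ℝ)..1, nrm (c.x t) (c.vel t) = L}

/-- Geodesics, by the geodesic equations of the metric. -/
def IsGeo (c : Crv) : Prop :=
  c.OfClass ⊤ ∧ ∀ t : ℝ,
    deriv (deriv c.x) t = - (c.x t * deriv c.z t ^ 2 / (1 + c.x t ^ 2) ^ 2) ∧
    deriv (deriv c.z) t = 2 * c.x t * deriv c.x t * deriv c.z t / (1 + c.x t ^ 2) ∧
    deriv (deriv c.θ) t = 0

/-- The point `N = {o}`. -/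
noncomputable def o : M := (0, 0, 0)

/-- `ρ` is the (finite) cut time of the tangent vector `v` at `o`: the supremum of the `t` with
`d(o, γ_v(t)) = t`, where `γ_v` is the geodesic from `o` with velocity `v`. -/
def IsCutTime (v : V) (ρ : ℝ) : Prop :=
  IsLUB {t : ℝ | 0 ≤ t ∧ ∃ c : Crv, IsGeo c ∧ c.pt 0 = o ∧ c.vel 0 = v ∧ dM o (c.pt t) = t} ρ

/-- The tangent cut locus of `o`: the vectors `ρ(v) v`, `v` a unit vector at `o` with finite cut
time. -/
def TangentCut : Set V := {u | ∃ v : V, ∃ ρ : ℝ, nrm 0 v = 1 ∧ IsCutTime v ρ ∧ u = ρ • v}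

/-- `P = exp_o(u)`: `P` is the value at time `1` of the geodesic from `o` with velocity `u`. -/
def IsExp (u : V) (P : M) : Prop :=
  ∃ c : Crv, IsGeo c ∧ c.pt 0 = o ∧ c.vel 0 = u ∧ c.pt 1 = P

/-- The cut locus of `o`. -/
def Cut : Set M := {P | ∃ u ∈ TangentCut, IsExp u P}

/-- `c` restricted to `[0, ℓ]` is an `N`-segment: a unit-speed geodesic from `o` with
`d(o, c ℓ) = ℓ`. -/
def IsNSegment (ℓ : ℝ) (c : Crv) : Prop :=
  0 ≤ ℓ ∧ IsGeo c ∧ c.pt 0 = o ∧ (∀ t, nrm (c.x t) (c.vel t) = 1) ∧ dM o (c.pt ℓ) = ℓ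

/-- The separating set: points joined to `o` by two `N`-segments that are distinct on `[0, ℓ]`. -/
def Sep : Set M :=
  {P | ∃ ℓ : ℝ, ∃ c₁ c₂ : Crv, IsNSegment ℓ c₁ ∧ IsNSegment ℓ c₂ ∧ c₁.pt ℓ = P ∧ c₂.pt ℓ = P ∧
    ∃ t ∈ Icc 0 ℓ, c₁.pt t ≠ c₂.pt t}

/-- The vectors of the tangent cut locus whose exponential lies in the separating set. -/
def TangentSep : Set V := {u | u ∈ TangentCut ∧ ∃ P ∈ Sep, IsExp u P}

/-! ### Geodesics -/

lemma hasDerivAt_of {f : ℝ → ℝ} (h : ContDiff ℝ ((⊤ : ℕ∞) : WithTop ℕ∞) f) (t : ℝ) :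
    HasDerivAt f (deriv f t) t :=
  (h.differentiable (by simp) t).hasDerivAt

lemma contDiff_deriv {f : ℝ → ℝ} (h : ContDiff ℝ ((⊤ : ℕ∞) : WithTop ℕ∞) f) :
    ContDiff ℝ ((⊤ : ℕ∞) : WithTop ℕ∞) (deriv f) := (contDiff_infty_iff_deriv.1 h).2

/-- Uniqueness for `y'' = - b² y`. -/
lemma osc_zero {y y' : ℝ → ℝ} {b : ℝ} (h1 : ∀ t, HasDerivAt y (y' t) t)
    (h2 : ∀ t, HasDerivAt y' (-(b ^ 2) * y t) t) (h0 : y 0 = 0) (h0' : y' 0 = 0) :
    ∀ t, y t = 0 := by
  have hE : ∀ t, HasDerivAt (fun t => y' t ^ 2 + b ^ 2 * y t ^ 2) 0 t := by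
    intro t
    have := ((h2 t).fun_pow 2).fun_add (((h1 t).fun_pow 2).const_mul (b ^ 2))
    refine this.congr_deriv ?_
    simp; ring
  have hc : ∀ t, y' t ^ 2 + b ^ 2 * y t ^ 2 = 0 := by
    intro t
    have := is_const_of_deriv_eq_zero (f := fun t => y' t ^ 2 + b ^ 2 * y t ^ 2)
      (fun t => (hE t).differentiableAt) (fun t => (hE t).deriv) t 0
    rw [this, h0, h0']; ring
  have hy' : ∀ t, y' t = 0 := by
    intro t
    have h := hc t
    have h3 : 0 ≤ b ^ 2 * y t ^ 2 := by positivity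
    have : y' t ^ 2 = 0 := le_antisymm (by linarith) (sq_nonneg _)
    exact pow_eq_zero_iff (two_ne_zero) |>.1 this
  intro t
  have := is_const_of_deriv_eq_zero (f := y) (fun t => (h1 t).differentiableAt)
    (fun t => by rw [(h1 t).deriv, hy' t]) t 0
  rw [this, h0]

section geo
variable {c : Crv} (h : IsGeo c)
include h

lemma geo_z' (h0 : c.x 0 = 0) (t : ℝ) : deriv c.z t = deriv c.z 0 * (1 + c.x t ^ 2) := by
  obtain ⟨⟨hx, hz, hθ⟩, hode⟩ := h
  have hq : ∀ t, HasDerivAt (fun t => deriv c.z t / (1 + c.x t ^ 2)) 0 t := by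
    intro t
    have hp : (1 + c.x t ^ 2) ≠ 0 := by positivity
    have a := hasDerivAt_of (contDiff_deriv hz) t
    have b := ((hasDerivAt_of hx t).fun_pow 2).const_add 1
    have := a.fun_div b hp
    refine this.congr_deriv ?_
    rw [(hode t).2.1]
    field_simp
    simp
  have := is_const_of_deriv_eq_zero (f := fun t => deriv c.z t / (1 + c.x t ^ 2))
    (fun t => (hq t).differentiableAt) (fun t => (hq t).deriv) t 0
  simp only [h0] at this
  have hp : (1 + c.x t ^ 2) ≠ 0 := by positivity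
  rw [div_eq_iff hp] at this
  rw [this]; simp

lemma geo_x'' (h0 : c.x 0 = 0) (t : ℝ) :
    HasDerivAt (deriv c.x) (-(deriv c.z 0 ^ 2) * c.x t) t := by
  have hz := geo_z' h h0 t
  obtain ⟨⟨hx, -, -⟩, hode⟩ := h
  have a := hasDerivAt_of (contDiff_deriv hx) t
  convert a using 1
  rw [(hode t).1, hz]
  have hp : (1 + c.x t ^ 2) ≠ 0 := by positivity
  field_simp

lemma geo_θ (t : ℝ) : c.θ t = c.θ 0 + deriv c.θ 0 * t := by
  obtain ⟨⟨-, -, hθ⟩, hode⟩ := h
  have hc : ∀ t, deriv c.θ t = deriv c.θ 0 := fun t =>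
    is_const_of_deriv_eq_zero (f := deriv c.θ)
      (fun t => (hasDerivAt_of (contDiff_deriv hθ) t).differentiableAt)
      (fun t => (hode t).2.2) t 0
  have hd : ∀ t, HasDerivAt (fun t => c.θ t - deriv c.θ 0 * t) 0 t := by
    intro t
    have := (hasDerivAt_of hθ t).fun_sub ((hasDerivAt_id t).const_mul (deriv c.θ 0))
    refine this.congr_deriv ?_
    rw [hc t]; simp
  have := is_const_of_deriv_eq_zero (f := fun t => c.θ t - deriv c.θ 0 * t)
    (fun t => (hd t).differentiableAt) (fun t => (hd t).deriv) t 0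
  simp only [mul_zero, sub_zero] at this
  linarith

/-- A geodesic from `x = 0` with `x' = 0` stays in `x = 0`. -/
lemma geo_line (h0 : c.x 0 = 0) (h0' : deriv c.x 0 = 0) (t : ℝ) :
    c.x t = 0 ∧ c.z t = c.z 0 + deriv c.z 0 * t := by
  have hx0 : ∀ t, c.x t = 0 := osc_zero (fun t => hasDerivAt_of h.1.1 t) (geo_x'' h h0) h0 h0'
  refine ⟨hx0 t, ?_⟩
  have hd : ∀ t, HasDerivAt (fun t => c.z t - deriv c.z 0 * t) 0 t := by
    intro t
    have := (hasDerivAt_of h.1.2.1 t).fun_sub ((hasDerivAt_id t).const_mul (deriv c.z 0))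
    refine this.congr_deriv ?_
    rw [geo_z' h h0 t, hx0 t]; simp
  have := is_const_of_deriv_eq_zero (f := fun t => c.z t - deriv c.z 0 * t)
    (fun t => (hd t).differentiableAt) (fun t => (hd t).deriv) t 0
  simp only [mul_zero, sub_zero] at this
  linarith

/-- If a geodesic from `o` meets `x = 0` again at a time `ℓ > 0` at which `0 < z ≤ π`, it runs
in `x = 0`. -/
lemma geo_return (h0 : c.x 0 = 0) (hz0 : c.z 0 = 0) {ℓ : ℝ} (hℓ : 0 < ℓ) (hx : c.x ℓ = 0)
    (hz : 0 < c.z ℓ) (hz' : c.z ℓ ≤ Real.pi) : deriv c.x 0 = 0 := by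
  by_contra ha
  set a := deriv c.x 0 with hadef
  set b := deriv c.z 0 with hbdef
  rcases eq_or_ne b 0 with hb | hb
  · -- then `x = a t`
    have hx'' := geo_x'' h h0
    rw [← hbdef, hb] at hx''
    have h1 : ∀ t, deriv c.x t = a := fun t =>
      is_const_of_deriv_eq_zero (f := deriv c.x) (fun t => (hx'' t).differentiableAt)
        (fun t => by rw [(hx'' t).deriv]; simp) t 0
    have hd : ∀ t, HasDerivAt (fun t => c.x t - a * t) 0 t := by
      intro t
      have := (hasDerivAt_of h.1.1 t).fun_sub ((hasDerivAt_id t).const_mul a)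
      refine this.congr_deriv ?_
      rw [h1 t]; simp
    have := is_const_of_deriv_eq_zero (f := fun t => c.x t - a * t)
      (fun t => (hd t).differentiableAt) (fun t => (hd t).deriv) ℓ 0
    simp only [mul_zero, sub_zero, hx, h0] at this
    have : a * ℓ = 0 := by linarith
    rcases mul_eq_zero.1 this with h | h
    · exact ha h
    · exact hℓ.ne' h
  · -- then `x = (a / b) sin (b t)`
    have hs : ∀ t, HasDerivAt (fun t => (a / b) * Real.sin (b * t)) (a * Real.cos (b * t)) t := by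
      intro t
      have := (((hasDerivAt_id t).const_mul b).sin).const_mul (a / b)
      refine this.congr_deriv ?_
      simp only [id]; field_simp
    have hs' : ∀ t, HasDerivAt (fun t => a * Real.cos (b * t)) (-(a * b) * Real.sin (b * t)) t := by
      intro t
      have := (((hasDerivAt_id t).const_mul b).cos).const_mul a
      refine this.congr_deriv ?_
      simp only [id]; ring
    have hy := osc_zero (y := fun t => c.x t - (a / b) * Real.sin (b * t))
      (y' := fun t => deriv c.x t - a * Real.cos (b * t)) (b := b)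
      (fun t => (hasDerivAt_of h.1.1 t).fun_sub (hs t))
      (fun t => by
        have := (geo_x'' h h0 t).fun_sub (hs' t)
        refine this.congr_deriv ?_
        rw [← hbdef]; field_simp; ring)
      (by simp [h0]) (by simp [hadef])
    have hxe : ∀ t, c.x t = (a / b) * Real.sin (b * t) := fun t => by linarith [hy t]
    have hsin : Real.sin (b * ℓ) = 0 := by
      have := hxe ℓ
      rw [hx] at this
      rcases mul_eq_zero.1 this.symm with h | h
      · exact absurd h (div_ne_zero ha hb)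
      · exact h
    -- the formula for `z`
    have hZ : ∀ t, HasDerivAt (fun t => c.z t - (b * t + a ^ 2 / b *
        (t / 2 - Real.sin (b * t) * Real.cos (b * t) / (2 * b)))) 0 t := by
      intro t
      have e1 := ((hasDerivAt_id t).const_mul b).sin
      have e2 := ((hasDerivAt_id t).const_mul b).cos
      have e3 := ((e1.fun_mul e2).div_const (2 * b))
      have e4 := (((hasDerivAt_id t).div_const 2).fun_sub e3).const_mul (a ^ 2 / b)
      have e5 := ((hasDerivAt_id t).const_mul b).fun_add e4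
      have := (hasDerivAt_of h.1.2.1 t).fun_sub e5
      refine this.congr_deriv ?_
      rw [geo_z' h h0 t, hxe t, ← hbdef]
      simp only [id]
      have h2 := Real.sin_sq_add_cos_sq (b * t)
      field_simp
      linear_combination (a ^ 2) * h2
    have hze := is_const_of_deriv_eq_zero (f := fun t => c.z t - (b * t + a ^ 2 / b *
        (t / 2 - Real.sin (b * t) * Real.cos (b * t) / (2 * b))))
      (fun t => (hZ t).differentiableAt) (fun t => (hZ t).deriv) ℓ 0
    simp only [hsin, hz0] at hze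
    have hz1 : c.z ℓ = b * ℓ * (1 + a ^ 2 / (2 * b ^ 2)) := by
      have : c.z ℓ = b * ℓ + a ^ 2 / b * (ℓ / 2) := by
        simp at hze
        linarith
      rw [this]; field_simp
    have hpos : 0 < 1 + a ^ 2 / (2 * b ^ 2) := by positivity
    have hgt : 1 < 1 + a ^ 2 / (2 * b ^ 2) := by
      have : 0 < a ^ 2 / (2 * b ^ 2) := by positivity
      linarith
    have hbl : 0 < b * ℓ := by
      rw [hz1] at hz
      by_contra hc
      push Not at hc
      have := mul_nonpos_of_nonpos_of_nonneg hc hpos.le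
      linarith
    obtain ⟨n, hn⟩ := Real.sin_eq_zero_iff.1 hsin
    have hn1 : (1 : ℝ) ≤ n := by
      have : 0 < (n : ℝ) := by
        by_contra hc
        push Not at hc
        have : (n : ℝ) * Real.pi ≤ 0 := mul_nonpos_of_nonpos_of_nonneg hc Real.pi_pos.le
        linarith
      exact_mod_cast this
    have hbl1 : Real.pi ≤ b * ℓ := by
      rw [← hn]; nlinarith [Real.pi_pos]
    have : Real.pi < c.z ℓ := by
      rw [hz1]
      nlinarith [Real.pi_pos]
    linarith

end geo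


/-! ### Lengths -/

/-- Lower bound for the length of the `(x, z)` part of a curve. -/
lemma lower_xz {x z : ℝ → ℝ} (hx : ContDiff ℝ 1 x) (hz : ContDiff ℝ 1 z) (hx0 : x 0 = 0)
    (hx1 : x 1 = 0) {w : ℝ → ℝ} (hw : Continuous w) (hw0 : ∀ t, 0 ≤ w t)
    (hw2 : ∀ t, w t ^ 2 = deriv x t ^ 2 + deriv z t ^ 2 / (1 + x t ^ 2))
    (hW : ∫ t in (0 : ℝ)..1, w t < Real.pi) : z 1 - z 0 ≤ ∫ t in (0 : ℝ)..1, w t := by
  set W := ∫ t in (0 : ℝ)..1, w t with hWdef
  set δ := (Real.pi - W) / 2 with hδ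
  have hδ0 : 0 < δ := by rw [hδ]; linarith
  set S : ℝ → ℝ := fun t => δ + ∫ s in (0 : ℝ)..t, w s with hS
  have hS' : ∀ t, HasDerivAt S (w t) t := fun t =>
    (intervalIntegral.integral_hasDerivAt_right (hw.intervalIntegrable _ _)
      hw.aestronglyMeasurable.stronglyMeasurableAtFilter hw.continuousAt).const_add δ
  have hmono : Monotone S := monotone_of_deriv_nonneg (fun t => (hS' t).differentiableAt)
    (fun t => by rw [(hS' t).deriv]; exact hw0 t)
  have hS0 : S 0 = δ := by simp [hS]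
  have hS1 : S 1 = δ + W := by simp [hS, hWdef]
  have hsin : ∀ t ∈ Icc (0 : ℝ) 1, 0 < Real.sin (S t) := by
    intro t ht
    apply Real.sin_pos_of_pos_of_lt_pi
    · have := hmono ht.1
      linarith
    · have := hmono ht.2
      rw [hS1] at this
      have : δ + W < Real.pi := by rw [hδ]; linarith
      linarith
  have hxd : ∀ t, HasDerivAt x (deriv x t) t := fun t =>
    (hx.differentiable (by simp) t).hasDerivAt
  have hzd : ∀ t, HasDerivAt z (deriv z t) t := fun t =>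
    (hz.differentiable (by simp) t).hasDerivAt
  set F : ℝ → ℝ := fun t => z t - S t + (x t ^ 2 / 2) * (Real.cos (S t) / Real.sin (S t)) with hF
  have hFd : ∀ t ∈ Icc (0 : ℝ) 1, HasDerivAt F (deriv z t - w t + (x t * deriv x t *
      (Real.cos (S t) / Real.sin (S t)) - (x t ^ 2 / 2) * w t *
        (1 + (Real.cos (S t) / Real.sin (S t)) ^ 2))) t := by
    intro t ht
    have hs := (hsin t ht).ne'
    have e1 := (((hS' t).cos).fun_div (hS' t).sin hs)
    have e2 := ((hxd t).fun_pow 2).div_const 2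
    have := ((hzd t).fun_sub (hS' t)).fun_add (e2.fun_mul e1)
    refine this.congr_deriv ?_
    have h2 := Real.sin_sq_add_cos_sq (S t)
    field_simp
    ring
  have hneg : ∀ t ∈ Icc (0 : ℝ) 1, deriv z t - w t + (x t * deriv x t *
      (Real.cos (S t) / Real.sin (S t)) - (x t ^ 2 / 2) * w t *
        (1 + (Real.cos (S t) / Real.sin (S t)) ^ 2)) ≤ 0 := by
    intro t _
    set C := Real.cos (S t) / Real.sin (S t) with hC
    have hm : 0 < 1 + x t ^ 2 := by positivity
    have h2 := hw2 t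
    rcases (hw0 t).eq_or_lt with h0 | h0
    · rw [← h0] at h2
      have p1 : 0 ≤ deriv x t ^ 2 := sq_nonneg _
      have p2 : 0 ≤ deriv z t ^ 2 / (1 + x t ^ 2) := by positivity
      have q1 : deriv x t ^ 2 = 0 := by nlinarith
      have q2 : deriv z t ^ 2 / (1 + x t ^ 2) = 0 := by nlinarith
      have r1 : deriv x t = 0 := by simpa using q1
      have r2 : deriv z t = 0 := by
        rcases div_eq_zero_iff.1 q2 with h | h
        · simpa using h
        · exact absurd h hm.ne'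
      rw [r1, r2, ← h0]; simp
    · have k1 : 0 ≤ (w t * (1 + x t ^ 2) - deriv z t) ^ 2 / (1 + x t ^ 2) := by positivity
      have k2 : (w t * (1 + x t ^ 2) - deriv z t) ^ 2 / (1 + x t ^ 2) =
          w t ^ 2 * (1 + x t ^ 2) + deriv z t ^ 2 / (1 + x t ^ 2) - 2 * deriv z t * w t := by
        field_simp; ring
      have k3 : 0 ≤ (deriv x t - x t * C * w t) ^ 2 := sq_nonneg _
      have key : w t * (deriv z t - w t + (x t * deriv x t * C - (x t ^ 2 / 2) * w t *
        (1 + C ^ 2))) ≤ 0 := by nlinarith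
      by_contra hc
      push Not at hc
      have := mul_pos h0 hc
      linarith
  have hanti : AntitoneOn F (Icc 0 1) := by
    apply antitoneOn_of_deriv_nonpos (convex_Icc 0 1)
    · exact fun t ht => (hFd t ht).continuousAt.continuousWithinAt
    · intro t ht
      rw [interior_Icc] at ht
      exact (hFd t (Ioo_subset_Icc_self ht)).differentiableAt.differentiableWithinAt
    · intro t ht
      rw [interior_Icc] at ht
      rw [(hFd t (Ioo_subset_Icc_self ht)).deriv]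
      exact hneg t (Ioo_subset_Icc_self ht)
  have := hanti (left_mem_Icc.2 zero_le_one) (right_mem_Icc.2 zero_le_one) zero_le_one
  simp only [hF, hx0, hx1, hS0, hS1] at this
  norm_num at this
  linarith

lemma angle_bound {φ ψ : ℝ} (h : (φ : Real.Angle) = ψ) (hψ : |ψ| ≤ Real.pi) : |ψ| ≤ |φ| := by
  obtain ⟨k, hk⟩ := Real.Angle.angle_eq_iff_two_pi_dvd_sub.1 h
  have hπ := Real.pi_pos
  rcases eq_or_ne k 0 with rfl | hk0
  · simp at hk
    have : φ = ψ := by linarith
    rw [this]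
  · have h1 : (1 : ℝ) ≤ |(k : ℝ)| := by
      have : (1 : ℤ) ≤ |k| := Int.one_le_abs hk0
      exact_mod_cast this
    have h2 : |φ - ψ| = 2 * Real.pi * |(k : ℝ)| := by
      rw [hk, abs_mul, abs_of_pos (by positivity)]
    have h3 := abs_sub φ ψ
    nlinarith

lemma speed_continuous {c : Crv} (hc : c.OfClass 1) :
    Continuous fun t => nrm (c.x t) (c.vel t) := by
  obtain ⟨hx, hz, hθ⟩ := hc
  have h1 := hx.continuous_deriv (by simp)
  have h2 := hz.continuous_deriv (by simp)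
  have h3 := hθ.continuous_deriv (by simp)
  have h4 := hx.continuous
  unfold nrm Crv.vel
  simp only
  apply Continuous.sqrt
  have : Continuous fun t => deriv c.z t ^ 2 / (1 + c.x t ^ 2) :=
    (h2.pow 2).div (by fun_prop) (fun t => by positivity)
  fun_prop

/-- Lower bound for the length of a curve. -/
lemma lower {c : Crv} (hc : c.OfClass 1) (hx0 : c.x 0 = 0) (hx1 : c.x 1 = 0) (hz0 : c.z 0 = 0)
    (hz : c.z 1 ≤ Real.pi) (hz' : 0 ≤ c.z 1) {φ : ℝ} (hφ : |φ| ≤ |c.θ 1 - c.θ 0|) :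
    Real.sqrt (c.z 1 ^ 2 + φ ^ 2) ≤ ∫ t in (0 : ℝ)..1, nrm (c.x t) (c.vel t) := by
  have hsp := speed_continuous hc
  obtain ⟨hx, hzc, hθ⟩ := hc
  have h1 := hx.continuous_deriv (by simp)
  have h2 := hzc.continuous_deriv (by simp)
  have h3 := hθ.continuous_deriv (by simp)
  have h4 := hx.continuous
  set w : ℝ → ℝ := fun t => Real.sqrt (deriv c.x t ^ 2 + deriv c.z t ^ 2 / (1 + c.x t ^ 2)) with hw
  have hwc : Continuous w := by
    apply Continuous.sqrt
    have : Continuous fun t => deriv c.z t ^ 2 / (1 + c.x t ^ 2) :=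
      (h2.pow 2).div (by fun_prop) (fun t => by positivity)
    fun_prop
  have hw0 : ∀ t, 0 ≤ w t := fun t => Real.sqrt_nonneg _
  have hw2 : ∀ t, w t ^ 2 = deriv c.x t ^ 2 + deriv c.z t ^ 2 / (1 + c.x t ^ 2) := fun t =>
    Real.sq_sqrt (by positivity)
  have hW : c.z 1 ≤ ∫ t in (0 : ℝ)..1, w t := by
    by_contra hcon
    push Not at hcon
    have := lower_xz hx hzc hx0 hx1 hwc hw0 hw2 (by linarith)
    linarith
  have hT : |φ| ≤ ∫ t in (0 : ℝ)..1, |deriv c.θ t| := by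
    have e : ∫ t in (0 : ℝ)..1, deriv c.θ t = c.θ 1 - c.θ 0 :=
      intervalIntegral.integral_deriv_eq_sub (fun t _ => hθ.differentiable (by simp) t)
        (h3.intervalIntegrable _ _)
    refine hφ.trans ?_
    rw [← e]
    exact intervalIntegral.abs_integral_le_integral_abs zero_le_one
  set L := Real.sqrt (c.z 1 ^ 2 + φ ^ 2) with hL
  have hL0 : 0 ≤ L := Real.sqrt_nonneg _
  have hL2 : L ^ 2 = c.z 1 ^ 2 + φ ^ 2 := Real.sq_sqrt (by positivity)
  have hlen0 : 0 ≤ ∫ t in (0 : ℝ)..1, nrm (c.x t) (c.vel t) :=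
    intervalIntegral.integral_nonneg zero_le_one (fun t _ => Real.sqrt_nonneg _)
  rcases hL0.eq_or_lt with h0 | hLp
  · rw [← h0]; exact hlen0
  have hpt : ∀ t, c.z 1 * w t + |φ| * |deriv c.θ t| ≤ L * nrm (c.x t) (c.vel t) := by
    intro t
    have hn : nrm (c.x t) (c.vel t) ^ 2 = w t ^ 2 + deriv c.θ t ^ 2 := by
      rw [hw2 t]
      unfold nrm Crv.vel
      rw [Real.sq_sqrt (by positivity)]
    have hn0 : 0 ≤ nrm (c.x t) (c.vel t) := Real.sqrt_nonneg _
    apply le_of_sq_le_sq _ (by positivity)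
    rw [mul_pow, hL2, hn]
    have a1 : |φ| ^ 2 = φ ^ 2 := sq_abs φ
    have a2 : |deriv c.θ t| ^ 2 = deriv c.θ t ^ 2 := sq_abs _
    nlinarith [sq_nonneg (c.z 1 * |deriv c.θ t| - |φ| * w t)]
  have hint : ∫ t in (0 : ℝ)..1, (c.z 1 * w t + |φ| * |deriv c.θ t|) ≤
      ∫ t in (0 : ℝ)..1, L * nrm (c.x t) (c.vel t) := by
    apply intervalIntegral.integral_mono_on zero_le_one
    · exact (by fun_prop : Continuous fun t => c.z 1 * w t + |φ| * |deriv c.θ t|).intervalIntegrable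
        _ _
    · exact (continuous_const.mul hsp).intervalIntegrable _ _
    · exact fun t _ => hpt t
  rw [intervalIntegral.integral_add ((hwc.const_mul _).intervalIntegrable _ _)
    ((h3.abs.const_mul _).intervalIntegrable _ _), intervalIntegral.integral_const_mul,
    intervalIntegral.integral_const_mul, intervalIntegral.integral_const_mul] at hint
  have b1 := mul_le_mul_of_nonneg_left hW hz'
  have b2 := mul_le_mul_of_nonneg_left hT (abs_nonneg φ)
  have b3 : |φ| * |φ| = φ ^ 2 := by rw [← sq, sq_abs]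
  have : L * L ≤ L * ∫ t in (0 : ℝ)..1, nrm (c.x t) (c.vel t) := by nlinarith
  exact le_of_mul_le_mul_left this hLp

/-! ### Distances from `o` -/

lemma bddBelow_lengths (P Q : M) : BddBelow {L : ℝ | ∃ c : Crv, c.OfClass 1 ∧ c.pt 0 = P ∧
    c.pt 1 = Q ∧ ∫ t in (0 : ℝ)..1, nrm (c.x t) (c.vel t) = L} := by
  refine ⟨0, ?_⟩
  rintro L ⟨c, -, -, -, rfl⟩
  exact intervalIntegral.integral_nonneg zero_le_one (fun t _ => Real.sqrt_nonneg _)

/-- The curve `t ↦ (0, b t, k t)`. -/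
noncomputable def line (b k : ℝ) : Crv := ⟨fun _ => 0, fun t => b * t, fun t => k * t⟩

lemma line_class (b k : ℝ) (n : ℕ∞) : (line b k).OfClass n :=
  ⟨contDiff_const, contDiff_const.mul contDiff_id, contDiff_const.mul contDiff_id⟩

lemma deriv_mul_id (b : ℝ) : deriv (fun t : ℝ => b * t) = fun _ => b := by
  ext t; simp

lemma line_vel (b k t : ℝ) : (line b k).vel t = (0, b, k) := by
  simp [line, Crv.vel]

lemma line_pt (b k t : ℝ) : (line b k).pt t = (0, b * t, ((k * t : ℝ) : Real.Angle)) := rfl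

lemma line_geo (b k : ℝ) : IsGeo (line b k) := by
  refine ⟨line_class b k ⊤, fun t => ⟨?_, ?_, ?_⟩⟩
  · simp [line]
  · simp [line]
  · simp [line]

lemma line_nrm (b k t : ℝ) : nrm ((line b k).x t) ((line b k).vel t) =
    Real.sqrt (b ^ 2 + k ^ 2) := by
  rw [line_vel]; simp [nrm, line]

lemma dM_le (z φ : ℝ) : dM o (0, z, (φ : Real.Angle)) ≤ Real.sqrt (z ^ 2 + φ ^ 2) := by
  apply csInf_le (bddBelow_lengths _ _)
  refine ⟨line z φ, line_class z φ 1, ?_, ?_, ?_⟩
  · simp [line_pt, o]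
  · simp [line_pt]
  · simp_rw [line_nrm]; simp

lemma le_dM {z φ : ℝ} (hz0 : 0 ≤ z) (hz : z ≤ Real.pi) (hφ : |φ| ≤ Real.pi) :
    Real.sqrt (z ^ 2 + φ ^ 2) ≤ dM o (0, z, (φ : Real.Angle)) := by
  apply le_csInf
  · exact ⟨_, line z φ, line_class z φ 1, by simp [line_pt, o], by simp [line_pt], rfl⟩
  · rintro L ⟨c, hc, h0, h1, rfl⟩
    simp only [Crv.pt, o, Prod.mk.injEq] at h0 h1
    obtain ⟨hx0, hz0', hθ0⟩ := h0
    obtain ⟨hx1, hz1, hθ1⟩ := h1
    have hang : ((c.θ 1 - c.θ 0 : ℝ) : Real.Angle) = (φ : Real.Angle) := by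
      rw [Real.Angle.coe_sub, hθ1, hθ0, sub_zero]
    have := lower hc hx0 hx1 hz0' (by rw [hz1]; exact hz) (by rw [hz1]; exact hz0)
      (angle_bound hang hφ)
    rwa [hz1] at this

lemma dM_eq {z φ : ℝ} (hz0 : 0 ≤ z) (hz : z ≤ Real.pi) (hφ : |φ| ≤ Real.pi) :
    dM o (0, z, (φ : Real.Angle)) = Real.sqrt (z ^ 2 + φ ^ 2) :=
  le_antisymm (dM_le z φ) (le_dM hz0 hz hφ)

/-- Beyond `z = π` the lines are not minimal. -/
lemma dM_lt {z : ℝ} (φ : ℝ) (hz : Real.pi < z) :
    dM o (0, z, (φ : Real.Angle)) < Real.sqrt (z ^ 2 + φ ^ 2) := by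
  have hπ := Real.pi_pos
  set X : ℝ := (z ^ 2 / Real.pi ^ 2 - 1) / 2 with hX
  have hz2 : Real.pi ^ 2 < z ^ 2 := by nlinarith
  have hX0 : 0 < X := by
    have : 1 < z ^ 2 / Real.pi ^ 2 := by rwa [one_lt_div (by positivity)]
    rw [hX]; linarith
  have hX1 : Real.pi ^ 2 * (1 + X) < z ^ 2 := by
    have : Real.pi ^ 2 * (1 + X) = (z ^ 2 + Real.pi ^ 2) / 2 := by
      rw [hX]; field_simp; ring
    rw [this]; linarith
  set ε : ℝ := Real.sqrt (2 * X) with hε
  have hε2 : ε ^ 2 = 2 * X := Real.sq_sqrt (by positivity)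
  set k : ℝ := z / (1 + X) with hk
  have hk1 : k * (1 + X) = z := by rw [hk]; field_simp
  set A : ℝ := Real.sqrt (z ^ 2 + φ ^ 2) with hA
  have hz00 : 0 < z := by linarith
  have hA0 : 0 < A := Real.sqrt_pos.2 (by positivity)
  have hA2 : A ^ 2 = z ^ 2 + φ ^ 2 := Real.sq_sqrt (by positivity)
  let c : Crv := ⟨fun t => ε * Real.sin (Real.pi * t),
    fun t => k * (t + ε ^ 2 * (t / 2 - Real.sin (Real.pi * t) * Real.cos (Real.pi * t) /
      (2 * Real.pi))), fun t => φ * t⟩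
  have hcl : c.OfClass 1 := by
    refine ⟨?_, ?_, ?_⟩
    · show ContDiff ℝ 1 (fun t => ε * Real.sin (Real.pi * t)); fun_prop
    · show ContDiff ℝ 1 (fun t => k * (t + ε ^ 2 * (t / 2 - Real.sin (Real.pi * t) *
        Real.cos (Real.pi * t) / (2 * Real.pi)))); fun_prop
    · show ContDiff ℝ 1 (fun t => φ * t); fun_prop
  have hxd : ∀ t, deriv c.x t = ε * Real.pi * Real.cos (Real.pi * t) := by
    intro t
    have := ((((hasDerivAt_id t).const_mul Real.pi).sin).const_mul ε)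
    have h := this.deriv
    simp only [id] at h
    show deriv (fun t => ε * Real.sin (Real.pi * t)) t = _
    rw [h]; ring
  have hzd : ∀ t, deriv c.z t = k * (1 + c.x t ^ 2) := by
    intro t
    have e1 := ((hasDerivAt_id t).const_mul Real.pi).sin
    have e2 := ((hasDerivAt_id t).const_mul Real.pi).cos
    have e3 := ((e1.fun_mul e2).div_const (2 * Real.pi))
    have e4 := (((hasDerivAt_id t).div_const 2).fun_sub e3).const_mul (ε ^ 2)
    have e5 := ((hasDerivAt_id t).fun_add e4).const_mul k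
    have h := e5.deriv
    simp only [id] at h
    show deriv (fun t => k * (t + ε ^ 2 * (t / 2 - Real.sin (Real.pi * t) *
      Real.cos (Real.pi * t) / (2 * Real.pi)))) t = k * (1 + (ε * Real.sin (Real.pi * t)) ^ 2)
    rw [h]
    have h2 := Real.sin_sq_add_cos_sq (Real.pi * t)
    field_simp
    linear_combination (-(k * ε ^ 2)) * h2
  have hθd : ∀ t, deriv c.θ t = φ := by
    intro t
    show deriv (fun t => φ * t) t = φ
    simp
  -- the square of the speed
  have hsq : ∀ t, deriv c.x t ^ 2 + deriv c.z t ^ 2 / (1 + c.x t ^ 2) + deriv c.θ t ^ 2 =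
      (ε * Real.pi * Real.cos (Real.pi * t)) ^ 2 +
        k ^ 2 * (1 + (ε * Real.sin (Real.pi * t)) ^ 2) + φ ^ 2 := by
    intro t
    have hp : 0 < 1 + c.x t ^ 2 := by positivity
    rw [hzd t, hxd t, hθd t]
    have : (k * (1 + c.x t ^ 2)) ^ 2 / (1 + c.x t ^ 2) = k ^ 2 * (1 + c.x t ^ 2) := by
      field_simp
    rw [this]
  have hspeed : ∀ t, nrm (c.x t) (c.vel t) ≤
      (((ε * Real.pi * Real.cos (Real.pi * t)) ^ 2 +
        k ^ 2 * (1 + (ε * Real.sin (Real.pi * t)) ^ 2) + φ ^ 2) + A ^ 2) / (2 * A) := by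
    intro t
    unfold nrm Crv.vel
    simp only
    rw [hsq t]
    set f := (ε * Real.pi * Real.cos (Real.pi * t)) ^ 2 +
        k ^ 2 * (1 + (ε * Real.sin (Real.pi * t)) ^ 2) + φ ^ 2 with hf
    have hf0 : 0 ≤ f := by positivity
    rw [le_div_iff₀ (by positivity)]
    have h1 := Real.sq_sqrt hf0
    nlinarith [sq_nonneg (Real.sqrt f - A)]
  -- its integral
  have hint : ∫ t in (0 : ℝ)..1, (((ε * Real.pi * Real.cos (Real.pi * t)) ^ 2 +
        k ^ 2 * (1 + (ε * Real.sin (Real.pi * t)) ^ 2) + φ ^ 2) + A ^ 2) / (2 * A) =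
      ((ε ^ 2 * Real.pi ^ 2 / 2 + k ^ 2 * (1 + ε ^ 2 / 2) + φ ^ 2) + A ^ 2) / (2 * A) := by
    have hF : ∀ t ∈ uIcc (0 : ℝ) 1, HasDerivAt (fun t : ℝ =>
        ((ε ^ 2 * Real.pi ^ 2 * (t / 2 + Real.sin (Real.pi * t) * Real.cos (Real.pi * t) /
          (2 * Real.pi)) + k ^ 2 * (t + ε ^ 2 * (t / 2 - Real.sin (Real.pi * t) *
          Real.cos (Real.pi * t) / (2 * Real.pi))) + φ ^ 2 * t) + A ^ 2 * t) / (2 * A))
        ((((ε * Real.pi * Real.cos (Real.pi * t)) ^ 2 +
        k ^ 2 * (1 + (ε * Real.sin (Real.pi * t)) ^ 2) + φ ^ 2) + A ^ 2) / (2 * A)) t := by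
      intro t _
      have e1 := ((hasDerivAt_id t).const_mul Real.pi).sin
      have e2 := ((hasDerivAt_id t).const_mul Real.pi).cos
      have e3 := ((e1.fun_mul e2).div_const (2 * Real.pi))
      have e4 := (((hasDerivAt_id t).div_const 2).fun_sub e3).const_mul (ε ^ 2)
      have e5 := ((hasDerivAt_id t).fun_add e4).const_mul (k ^ 2)
      have e6 := (((hasDerivAt_id t).div_const 2).fun_add e3).const_mul (ε ^ 2 * Real.pi ^ 2)
      have e7 := (e6.fun_add e5).fun_add ((hasDerivAt_id t).const_mul (φ ^ 2))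
      have e8 := (e7.fun_add ((hasDerivAt_id t).const_mul (A ^ 2))).div_const (2 * A)
      refine e8.congr_deriv ?_
      simp only [id]
      have h2 : Real.sin (Real.pi * t) ^ 2 = 1 - Real.cos (Real.pi * t) ^ 2 := by
        have := Real.sin_sq_add_cos_sq (Real.pi * t); linarith
      congr 1
      field_simp
      rw [h2]
      ring
    rw [intervalIntegral.integral_eq_sub_of_hasDerivAt hF]
    · simp
      ring
    · apply Continuous.intervalIntegrable
      fun_prop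
  have hlen : ∫ t in (0 : ℝ)..1, nrm (c.x t) (c.vel t) < A := by
    have h1 : ∫ t in (0 : ℝ)..1, nrm (c.x t) (c.vel t) ≤
        ((ε ^ 2 * Real.pi ^ 2 / 2 + k ^ 2 * (1 + ε ^ 2 / 2) + φ ^ 2) + A ^ 2) / (2 * A) := by
      rw [← hint]
      apply intervalIntegral.integral_mono_on zero_le_one
      · exact (speed_continuous hcl).intervalIntegrable _ _
      · apply Continuous.intervalIntegrable
        fun_prop
      · exact fun t _ => hspeed t
    refine lt_of_le_of_lt h1 ?_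
    rw [div_lt_iff₀ (by positivity)]
    have h2 : ε ^ 2 * Real.pi ^ 2 / 2 + k ^ 2 * (1 + ε ^ 2 / 2) < z ^ 2 := by
      rw [hε2]
      have e : k ^ 2 * (1 + 2 * X / 2) = z ^ 2 / (1 + X) := by
        rw [hk]; field_simp
      rw [e]
      have hp : 0 < 1 + X := by linarith
      have : z ^ 2 / (1 + X) = z ^ 2 - X * (z ^ 2 / (1 + X)) := by field_simp; ring
      rw [this]
      have : Real.pi ^ 2 < z ^ 2 / (1 + X) := by
        rw [lt_div_iff₀ hp]; exact hX1
      nlinarith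
    nlinarith
  refine lt_of_le_of_lt (csInf_le (bddBelow_lengths _ _) ⟨c, hcl, ?_, ?_, rfl⟩) hlen
  · simp [Crv.pt, o, c]
  · simp only [Crv.pt, c]
    have hs : Real.sin (Real.pi * 1) = 0 := by simp
    rw [hs]
    refine Prod.ext ?_ (Prod.ext ?_ ?_)
    · simp
    · show k * (1 + ε ^ 2 * (1 / 2 - 0 * Real.cos (Real.pi * 1) / (2 * Real.pi))) = z
      rw [hε2, ← hk1]; ring
    · simp

/-! ### Completeness -/

lemma mk_geo {X : ℝ → ℝ} (hX : ContDiff ℝ ((⊤ : ℕ∞) : WithTop ℕ∞) X) (b : ℝ)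
    (hX2 : ∀ t, deriv (deriv X) t = -(b ^ 2) * X t) (z0 θ0 k : ℝ) :
    IsGeo ⟨X, fun t => z0 + ∫ s in (0 : ℝ)..t, b * (1 + X s ^ 2), fun t => θ0 + k * t⟩ ∧
      ∀ t, deriv (fun t => z0 + ∫ s in (0 : ℝ)..t, b * (1 + X s ^ 2)) t = b * (1 + X t ^ 2) := by
  have hf : ContDiff ℝ ((⊤ : ℕ∞) : WithTop ℕ∞) (fun t => b * (1 + X t ^ 2)) := by fun_prop
  have hZ : ∀ t, HasDerivAt (fun t => z0 + ∫ s in (0 : ℝ)..t, b * (1 + X s ^ 2))
      (b * (1 + X t ^ 2)) t := fun t =>
    (intervalIntegral.integral_hasDerivAt_right (hf.continuous.intervalIntegrable _ _)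
      hf.continuous.aestronglyMeasurable.stronglyMeasurableAtFilter
        hf.continuous.continuousAt).const_add z0
  have hZ' : deriv (fun t => z0 + ∫ s in (0 : ℝ)..t, b * (1 + X s ^ 2)) =
      fun t => b * (1 + X t ^ 2) := by ext t; exact (hZ t).deriv
  refine ⟨⟨⟨hX, ?_, by fun_prop⟩, fun t => ⟨?_, ?_, ?_⟩⟩, fun t => (hZ t).deriv⟩
  · rw [contDiff_infty_iff_deriv]
    refine ⟨fun t => (hZ t).differentiableAt, ?_⟩
    rw [hZ']; exact hf
  · show deriv (deriv X) t = - (X t * deriv (fun t => z0 + ∫ s in (0 : ℝ)..t,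
      b * (1 + X s ^ 2)) t ^ 2 / (1 + X t ^ 2) ^ 2)
    rw [hX2, (hZ t).deriv]
    have : (1 + X t ^ 2) ≠ 0 := by positivity
    field_simp
  · show deriv (deriv (fun t => z0 + ∫ s in (0 : ℝ)..t, b * (1 + X s ^ 2))) t =
      2 * X t * deriv X t * deriv (fun t => z0 + ∫ s in (0 : ℝ)..t, b * (1 + X s ^ 2)) t /
        (1 + X t ^ 2)
    rw [hZ']
    have hx := hasDerivAt_of hX t
    have := (((hx.fun_pow 2).const_add 1).const_mul b).deriv
    rw [this]
    have : (1 + X t ^ 2) ≠ 0 := by positivity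
    field_simp
    simp
    ring
  · show deriv (deriv fun t => θ0 + k * t) t = 0
    have : (deriv fun t : ℝ => θ0 + k * t) = fun _ => k := by
      ext t; simp
    rw [this]; simp

/-- `M` is complete: every geodesic is defined for all times. -/
lemma complete (P : M) (v : V) : ∃ c : Crv, IsGeo c ∧ c.pt 0 = P ∧ c.vel 0 = v := by
  obtain ⟨x0, z0, θ⟩ := P
  obtain ⟨a, bb, k⟩ := v
  obtain ⟨θ0, rfl⟩ : ∃ θ0 : ℝ, (θ0 : Real.Angle) = θ := by
    induction θ using Real.Angle.induction_on with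
    | h x => exact ⟨x, rfl⟩
  have hp : (1 + x0 ^ 2) ≠ 0 := by positivity
  set b := bb / (1 + x0 ^ 2) with hb
  have hbb : b * (1 + x0 ^ 2) = bb := by rw [hb]; field_simp
  obtain ⟨X, hX, hX2, hX0, hX1⟩ : ∃ X : ℝ → ℝ, ContDiff ℝ ((⊤ : ℕ∞) : WithTop ℕ∞) X ∧
      (∀ t, deriv (deriv X) t = -(b ^ 2) * X t) ∧ X 0 = x0 ∧ deriv X 0 = a := by
    rcases eq_or_ne b 0 with hb0 | hb0
    · have h1 : deriv (fun t : ℝ => x0 + a * t) = fun _ => a := by ext t; simp
      refine ⟨fun t => x0 + a * t, by fun_prop, fun t => ?_, by simp, by rw [h1]⟩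
      rw [h1, hb0]; simp
    · have h1 : deriv (fun t : ℝ => x0 * Real.cos (b * t) + a / b * Real.sin (b * t)) =
          fun t => -(x0 * b) * Real.sin (b * t) + a * Real.cos (b * t) := by
        ext t
        have e1 := (((hasDerivAt_id t).const_mul b).cos).const_mul x0
        have e2 := (((hasDerivAt_id t).const_mul b).sin).const_mul (a / b)
        have h := (e1.fun_add e2).deriv
        simp only [id] at h
        rw [h]; field_simp
      refine ⟨fun t => x0 * Real.cos (b * t) + a / b * Real.sin (b * t), by fun_prop,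
        fun t => ?_, by simp, by rw [h1]; simp⟩
      rw [h1]
      have e1 := (((hasDerivAt_id t).const_mul b).sin).const_mul (-(x0 * b))
      have e2 := (((hasDerivAt_id t).const_mul b).cos).const_mul a
      have h := (e1.fun_add e2).deriv
      simp only [id] at h
      rw [h]; field_simp; ring
  obtain ⟨hg, hd⟩ := mk_geo hX b hX2 z0 θ0 k
  refine ⟨_, hg, ?_, ?_⟩
  · simp [Crv.pt, hX0]
  · have hd0 := hd 0
    rw [hX0, hbb] at hd0
    simp only [Crv.vel]
    rw [hd0, hX1]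
    simp

/-! ### Cut points -/

lemma norm_pos (φ : ℝ) : 0 < Real.sqrt (Real.pi ^ 2 + φ ^ 2) := by
  have := Real.pi_pos
  exact Real.sqrt_pos.2 (by positivity)

lemma norm_sq' (φ : ℝ) : Real.sqrt (Real.pi ^ 2 + φ ^ 2) ^ 2 = Real.pi ^ 2 + φ ^ 2 :=
  Real.sq_sqrt (by positivity)

/-- A geodesic from `o` with velocity `(0, b, k)`. -/
lemma geo_pt {c : Crv} (h : IsGeo c) (h0 : c.pt 0 = o) {b k : ℝ} (hv : c.vel 0 = (0, b, k))
    (t : ℝ) : c.pt t = (0, b * t, ((k * t : ℝ) : Real.Angle)) := by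
  simp only [Crv.pt, o, Prod.mk.injEq] at h0
  simp only [Crv.vel, Prod.mk.injEq] at hv
  obtain ⟨hx0, hz0, hθ0⟩ := h0
  obtain ⟨hv1, hv2, hv3⟩ := hv
  obtain ⟨h1, h2⟩ := geo_line h hx0 hv1 t
  have h3 := geo_θ h t
  rw [hz0, hv2, zero_add] at h2
  rw [hv3] at h3
  simp only [Crv.pt]
  rw [h1, h2, h3, Real.Angle.coe_add, hθ0, zero_add]

lemma isCutTime {φ : ℝ} (hφ : |φ| ≤ Real.pi) :
    IsCutTime (0, Real.pi / Real.sqrt (Real.pi ^ 2 + φ ^ 2), φ / Real.sqrt (Real.pi ^ 2 + φ ^ 2))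
      (Real.sqrt (Real.pi ^ 2 + φ ^ 2)) := by
  set L := Real.sqrt (Real.pi ^ 2 + φ ^ 2) with hL
  have hLp : 0 < L := norm_pos φ
  have hL2 : L ^ 2 = Real.pi ^ 2 + φ ^ 2 := norm_sq' φ
  have hπ := Real.pi_pos
  apply IsGreatest.isLUB
  constructor
  · refine ⟨hLp.le, line (Real.pi / L) (φ / L), line_geo _ _, by simp [line_pt, o],
      line_vel _ _ _, ?_⟩
    rw [line_pt, div_mul_cancel₀ _ hLp.ne', div_mul_cancel₀ _ hLp.ne']
    exact dM_eq hπ.le le_rfl hφ
  · rintro t ⟨ht0, c, hc, hc0, hcv, hd⟩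
    by_contra hlt
    push Not at hlt
    rw [geo_pt hc hc0 hcv t] at hd
    have h1 : Real.pi < Real.pi / L * t := by
      have : Real.pi = Real.pi / L * L := by field_simp
      calc Real.pi = Real.pi / L * L := this
        _ < Real.pi / L * t := by
          apply mul_lt_mul_of_pos_left hlt (by positivity)
    have h2 := dM_lt (φ / L * t) h1
    have h3 : (Real.pi / L * t) ^ 2 + (φ / L * t) ^ 2 = t ^ 2 := by
      field_simp
      rw [hL2]; ring
    rw [h3, Real.sqrt_sq ht0, hd] at h2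
    exact lt_irrefl _ h2

lemma mem_tangentCut {φ : ℝ} (hφ : |φ| ≤ Real.pi) : ((0, Real.pi, φ) : V) ∈ TangentCut := by
  have hLp := norm_pos φ
  refine ⟨_, _, ?_, isCutTime hφ, ?_⟩
  · unfold nrm
    have hL2 := norm_sq' φ
    have : ((0 : ℝ) ^ 2 + (Real.pi / Real.sqrt (Real.pi ^ 2 + φ ^ 2)) ^ 2 / (1 + 0 ^ 2) +
        (φ / Real.sqrt (Real.pi ^ 2 + φ ^ 2)) ^ 2) = 1 := by
      rw [div_pow, div_pow, hL2]
      have : Real.pi ^ 2 + φ ^ 2 ≠ 0 := by have := Real.pi_pos; positivity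
      field_simp
      ring
    simp only
    rw [this, Real.sqrt_one]
  · refine Prod.ext ?_ (Prod.ext ?_ ?_)
    · simp
    · simp only [Prod.smul_mk, smul_eq_mul]; field_simp
    · simp only [Prod.smul_mk, smul_eq_mul]; field_simp

lemma isExp (φ : ℝ) : IsExp (0, Real.pi, φ) (0, Real.pi, (φ : Real.Angle)) :=
  ⟨line Real.pi φ, line_geo _ _, by simp [line_pt, o], line_vel _ _ _, by simp [line_pt]⟩

lemma isExp_unique {φ : ℝ} {P : M} (h : IsExp (0, Real.pi, φ) P) :
    P = (0, Real.pi, (φ : Real.Angle)) := by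
  obtain ⟨c, hc, hc0, hcv, rfl⟩ := h
  rw [geo_pt hc hc0 hcv 1]; simp

/-- An `N`-segment that ends at `(0, π, φ)`, `0 ≤ φ < π`, is the line. -/
lemma segment_unique {φ : ℝ} (h0 : 0 ≤ φ) (h1 : φ < Real.pi) {ℓ : ℝ} {c : Crv}
    (hc : IsNSegment ℓ c) (he : c.pt ℓ = (0, Real.pi, (φ : Real.Angle))) :
    ∀ t, c.pt t = (0, Real.pi / Real.sqrt (Real.pi ^ 2 + φ ^ 2) * t,
      ((φ / Real.sqrt (Real.pi ^ 2 + φ ^ 2) * t : ℝ) : Real.Angle)) := by
  obtain ⟨hℓ, hg, hc0, hunit, hd⟩ := hc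
  have hπ := Real.pi_pos
  have hφ : |φ| ≤ Real.pi := by rw [abs_of_nonneg h0]; exact h1.le
  set L := Real.sqrt (Real.pi ^ 2 + φ ^ 2) with hL
  have hLp : 0 < L := norm_pos φ
  have hL2 : L ^ 2 = Real.pi ^ 2 + φ ^ 2 := norm_sq' φ
  have hℓL : ℓ = L := by
    rw [← hd, he]; exact dM_eq hπ.le le_rfl hφ
  have hx0 : c.x 0 = 0 := by simpa [Crv.pt, o] using congrArg (fun P : M => P.1) hc0
  have hz0 : c.z 0 = 0 := by simpa [Crv.pt, o] using congrArg (fun P : M => P.2.1) hc0
  have hθ0 : ((c.θ 0 : ℝ) : Real.Angle) = 0 := by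
    simpa [Crv.pt, o] using congrArg (fun P : M => P.2.2) hc0
  have hxℓ : c.x ℓ = 0 := by simpa [Crv.pt] using congrArg (fun P : M => P.1) he
  have hzℓ : c.z ℓ = Real.pi := by simpa [Crv.pt] using congrArg (fun P : M => P.2.1) he
  have hθℓ : ((c.θ ℓ : ℝ) : Real.Angle) = φ := by
    simpa [Crv.pt] using congrArg (fun P : M => P.2.2) he
  have ha : deriv c.x 0 = 0 := geo_return hg hx0 hz0 (by rw [hℓL]; exact hLp) hxℓ
    (by rw [hzℓ]; exact hπ) (by rw [hzℓ])
  have hz := (geo_line hg hx0 ha ℓ).2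
  rw [hzℓ, hz0, zero_add] at hz
  have hθ := geo_θ hg ℓ
  set b := deriv c.z 0 with hb
  set k := deriv c.θ 0 with hk
  have hbL : b = Real.pi / L := by
    rw [hz, ← hℓL]
    have : ℓ ≠ 0 := by rw [hℓL]; exact hLp.ne'
    field_simp
  -- unit speed
  have hu := hunit 0
  unfold nrm Crv.vel at hu
  simp only [ha, hx0] at hu
  have hu2 : b ^ 2 + k ^ 2 = 1 := by
    have : Real.sqrt (0 ^ 2 + b ^ 2 / (1 + 0 ^ 2) + k ^ 2) ^ 2 =
        0 ^ 2 + b ^ 2 / (1 + 0 ^ 2) + k ^ 2 := Real.sq_sqrt (by positivity)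
    rw [hu] at this
    norm_num at this
    linarith
  have hang : ((k * ℓ : ℝ) : Real.Angle) = (φ : Real.Angle) := by
    have : k * ℓ = c.θ ℓ - c.θ 0 := by rw [hθ]; ring
    rw [this, Real.Angle.coe_sub, hθℓ, hθ0, sub_zero]
  have hkl : (k * ℓ) ^ 2 = φ ^ 2 := by
    have e1 : (b ^ 2 + k ^ 2) * L ^ 2 = Real.pi ^ 2 + φ ^ 2 := by rw [hu2, hL2]; ring
    have e2 : b * L = Real.pi := by rw [hbL]; field_simp
    rw [hℓL]; nlinarith
  have hkφ : k * ℓ = φ := by
    rcases sq_eq_sq_iff_eq_or_eq_neg.1 hkl with h | h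
    · exact h
    · rw [h] at hang
      obtain ⟨m, hm⟩ := Real.Angle.angle_eq_iff_two_pi_dvd_sub.1 hang
      have h2 : φ = - (m * Real.pi) := by linarith
      have hm1 : (-1 : ℝ) < m := by
        by_contra hcon
        push Not at hcon
        have : Real.pi ≤ φ := by rw [h2]; nlinarith
        linarith
      have hm2 : (m : ℝ) ≤ 0 := by
        by_contra hcon
        push Not at hcon
        have : φ < 0 := by rw [h2]; nlinarith
        linarith
      have hm3 : (-1 : ℤ) < m := by exact_mod_cast hm1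
      have hm4 : m ≤ 0 := by exact_mod_cast hm2
      have hm5 : m = 0 := by omega
      rw [hm5] at h2
      simp at h2
      rw [h, h2]; simp
  have hkL : k = φ / L := by
    have : ℓ ≠ 0 := by rw [hℓL]; exact hLp.ne'
    rw [← hkφ, ← hℓL]; field_simp
  intro t
  have hv : c.vel 0 = (0, Real.pi / L, φ / L) := by
    simp only [Crv.vel, ha, ← hb, ← hk, ← hbL, ← hkL]
  exact geo_pt hg hc0 hv t

lemma not_mem_sep {φ : ℝ} (h0 : 0 ≤ φ) (h1 : φ < Real.pi) :
    ((0, Real.pi, (φ : Real.Angle)) : M) ∉ Sep := by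
  rintro ⟨ℓ, c₁, c₂, hs₁, hs₂, he₁, he₂, t, -, hne⟩
  apply hne
  rw [segment_unique h0 h1 hs₁ he₁ t, segment_unique h0 h1 hs₂ he₂ t]

lemma line_segment {φ : ℝ} (hφ : |φ| ≤ Real.pi) :
    IsNSegment (Real.sqrt (Real.pi ^ 2 + φ ^ 2))
      (line (Real.pi / Real.sqrt (Real.pi ^ 2 + φ ^ 2)) (φ / Real.sqrt (Real.pi ^ 2 + φ ^ 2))) := by
  have hπ := Real.pi_pos
  set L := Real.sqrt (Real.pi ^ 2 + φ ^ 2) with hL
  have hLp : 0 < L := norm_pos φ
  have hL2 : L ^ 2 = Real.pi ^ 2 + φ ^ 2 := norm_sq' φ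
  refine ⟨hLp.le, line_geo _ _, by simp [line_pt, o], fun t => ?_, ?_⟩
  · rw [line_nrm, div_pow, div_pow, ← add_div, ← hL2, div_self (by positivity), Real.sqrt_one]
  · rw [line_pt, div_mul_cancel₀ _ hLp.ne', div_mul_cancel₀ _ hLp.ne']
    exact dM_eq hπ.le le_rfl hφ

lemma pi_mem_sep : ((0, Real.pi, (Real.pi : Real.Angle)) : M) ∈ Sep := by
  have hπ := Real.pi_pos
  have h1 := line_segment (φ := Real.pi) (by rw [abs_of_pos hπ])
  have h2 := line_segment (φ := -Real.pi) (by rw [abs_neg, abs_of_pos hπ])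
  rw [neg_sq] at h2
  set L := Real.sqrt (Real.pi ^ 2 + Real.pi ^ 2) with hL
  have hLp : 0 < L := norm_pos Real.pi
  refine ⟨L, _, _, h1, h2, ?_, ?_, L / 2, ⟨by positivity, by linarith⟩, ?_⟩
  · rw [line_pt, div_mul_cancel₀ _ hLp.ne']
  · rw [line_pt, div_mul_cancel₀ _ hLp.ne', div_mul_cancel₀ _ hLp.ne']
    simp
  · intro h
    rw [line_pt, line_pt] at h
    have h3 := congrArg (fun P : M => P.2.2) h
    simp only at h3
    obtain ⟨m, hm⟩ := Real.Angle.angle_eq_iff_two_pi_dvd_sub.1 h3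
    have e : Real.pi / L * (L / 2) - -Real.pi / L * (L / 2) = Real.pi := by field_simp; ring
    rw [e] at hm
    have h4 : (1 : ℝ) = 2 * m := by
      have : Real.pi * (1 - 2 * m) = 0 := by linarith
      rcases mul_eq_zero.1 this with h | h
      · exact absurd h hπ.ne'
      · linarith
    have h5 : (1 : ℤ) = 2 * m := by exact_mod_cast h4
    omega

/-! ### Limits -/

lemma ev_small : ∀ᶠ φ : ℝ in 𝓝[<] Real.pi, 0 ≤ φ ∧ φ < Real.pi := by
  filter_upwards [Ioo_mem_nhdsLT Real.pi_pos] with φ hφ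
  exact ⟨hφ.1.le, hφ.2⟩

lemma tangent_closure : ((0, Real.pi, Real.pi) : V) ∈ closure (TangentCut \ TangentSep) := by
  have hc : Continuous fun φ : ℝ => ((0, Real.pi, φ) : V) := by fun_prop
  have ht : Filter.Tendsto (fun φ : ℝ => ((0, Real.pi, φ) : V)) (𝓝[<] Real.pi)
      (𝓝 (0, Real.pi, Real.pi)) := (hc.tendsto Real.pi).mono_left nhdsWithin_le_nhds
  apply mem_closure_of_tendsto ht
  filter_upwards [ev_small] with φ hφ
  refine ⟨mem_tangentCut (by rw [abs_of_nonneg hφ.1]; exact hφ.2.le), ?_⟩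
  rintro ⟨-, P, hP, hE⟩
  rw [isExp_unique hE] at hP
  exact not_mem_sep hφ.1 hφ.2 hP

lemma cut_closure : ((0, Real.pi, (Real.pi : Real.Angle)) : M) ∈ closure (Cut \ Sep) := by
  have hc : Continuous fun φ : ℝ => ((0, Real.pi, (φ : Real.Angle)) : M) :=
    continuous_const.prodMk (continuous_const.prodMk Real.Angle.continuous_coe)
  have ht : Filter.Tendsto (fun φ : ℝ => ((0, Real.pi, (φ : Real.Angle)) : M)) (𝓝[<] Real.pi)
      (𝓝 (0, Real.pi, (Real.pi : Real.Angle))) :=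
    (hc.tendsto Real.pi).mono_left nhdsWithin_le_nhds
  apply mem_closure_of_tendsto ht
  filter_upwards [ev_small] with φ hφ
  exact ⟨⟨_, mem_tangentCut (by rw [abs_of_nonneg hφ.1]; exact hφ.2.le), isExp φ⟩,
    not_mem_sep hφ.1 hφ.2⟩

lemma not_open_of_closure {X : Type*} [TopologicalSpace X] {A S : Set X} {a : X} (haA : a ∈ A)
    (haS : a ∈ S) (h : a ∈ closure (A \ S)) : ¬ IsOpen {x : A | (x : X) ∈ S} := by
  intro ho
  obtain ⟨U, hU, hUe⟩ := isOpen_induced_iff.1 ho
  have haU : a ∈ U := by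
    have : (⟨a, haA⟩ : A) ∈ (Subtype.val ⁻¹' U : Set A) := by rw [hUe]; exact haS
    exact this
  obtain ⟨b, hbU, hbA, hbS⟩ := mem_closure_iff.1 h U hU haU
  have : (⟨b, hbA⟩ : A) ∈ {x : A | (x : X) ∈ S} := by rw [← hUe]; exact hbU
  exact hbS this

/-- **Both questions of Bishop have a negative answer for a point of a complete Riemannian
3-manifold**, namely `M = ℝ × ℝ × S¹` with the metric `dx² + dz² / (1 + x²) + dθ²` and
`N = {(0, 0, 0)}`. -/
theorem result :
    (∀ (P : M) (v : V), ∃ c : Crv, IsGeo c ∧ c.pt 0 = P ∧ c.vel 0 = v) ∧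
    (∃ u ∈ TangentSep, u ∈ closure (TangentCut \ TangentSep)) ∧
    ¬ IsOpen {u : TangentCut | (u : V) ∈ TangentSep} ∧
    (∃ q ∈ Cut ∩ Sep, q ∈ closure (Cut \ Sep)) ∧
    ¬ IsOpen {q : Cut | (q : M) ∈ Sep} := by
  have hT : ((0, Real.pi, Real.pi) : V) ∈ TangentCut :=
    mem_tangentCut (by rw [abs_of_pos Real.pi_pos])
  have hTS : ((0, Real.pi, Real.pi) : V) ∈ TangentSep := ⟨hT, _, pi_mem_sep, isExp Real.pi⟩
  have hC : ((0, Real.pi, (Real.pi : Real.Angle)) : M) ∈ Cut := ⟨_, hT, isExp Real.pi⟩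
  exact ⟨complete, ⟨_, hTS, tangent_closure⟩, not_open_of_closure hT hTS tangent_closure,
    ⟨_, ⟨hC, pi_mem_sep⟩, cut_closure⟩, not_open_of_closure hC pi_mem_sep cut_closure⟩

end Pool.Agent.Results.MP_402458_gt.PointCase
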