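import Mathlib

/-!
# Bishop's question on the separating set: a counterexample in Euclidean 3-space

We work in Euclidean space `E = EuclideanSpace ℝ (Fin 3)`. The closed embedded submanifold is the
closed curve `{(x, y, w) : x² + w² = 1, y = x²}`. For the points `q_t = (0, t/2, t)` the squared
distance to the point `(x, x², w)` of the curve is `|q_t - (0,0,1)|² + x⁴ + t (w - 1)²`, so that for
`0 < t < 1` the only nearest point is `(0,0,1)`, while `q_0 = 0` has the two nearest points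
`(0,0,1)` and `(0,0,-1)`.
-/

open Set Metric Topology
open scoped RealInnerProductSpace ContDiff

namespace Pool.Agent.Results.MP_402458_gt.SeparatingSetNotOpen

/-- Euclidean 3-space, a complete Riemannian manifold. Its unit-speed geodesics are
the lines `s ↦ p + s • v` with `‖v‖ = 1`. -/
abbrev E : Type := EuclideanSpace ℝ (Fin 3)

/-- `N` is the image of a smooth regular simple closed curve, hence a compact connected embedded
one-dimensional submanifold of `E`. -/
def IsSmoothClosedCurve (N : Set E) : Prop :=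
  ∃ c : ℝ → E, ContDiff ℝ ∞ c ∧ Function.Periodic c (2 * Real.pi) ∧ (∀ s, deriv c s ≠ 0) ∧
    InjOn c (Ico 0 (2 * Real.pi)) ∧ range c = N

/-- The unit normal bundle `S(ν)` of `N`, as a set of pairs (foot point, vector): unit vectors
orthogonal to the velocities at `p` of the smooth curves that run in `N`. -/
def UnitNormal (N : Set E) : Set (E × E) :=
  {a | a.1 ∈ N ∧ ‖a.2‖ = 1 ∧
    ∀ γ : ℝ → E, ContDiff ℝ ∞ γ → (∀ s, γ s ∈ N) → γ 0 = a.1 → ⟪deriv γ 0, a.2⟫ = 0}

/-- `r` is the cut time `ρ(v)` of `(p, v)`, and is finite: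
`r = sup {t : d(N, p + t v) = t}`. -/
def IsCutTime (N : Set E) (p v : E) (r : ℝ) : Prop :=
  IsLUB {t : ℝ | 0 ≤ t ∧ infDist (p + t • v) N = t} r

/-- The tangent cut locus: the vectors `ρ(v) v` (with foot point `p`) for `(p, v)` in the unit
normal bundle with finite cut time. -/
def TangentCut (N : Set E) : Set (E × E) :=
  {u | ∃ v : E, ∃ r : ℝ, (u.1, v) ∈ UnitNormal N ∧ IsCutTime N u.1 v r ∧ u.2 = r • v}

/-- The normal exponential map `(p, u) ↦ p + u`. -/
def nexp (u : E × E) : E := u.1 + u.2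

/-- The cut locus: the image of the tangent cut locus under the normal exponential map. -/
def Cut (N : Set E) : Set E := nexp '' TangentCut N

/-- `γ` restricted to `[0, ℓ]` is an `N`-segment: a unit-speed geodesic from `N` with
`d(N, γ ℓ) = ℓ`. -/
def IsNSegment (N : Set E) (ℓ : ℝ) (γ : ℝ → E) : Prop :=
  0 ≤ ℓ ∧ (∃ p v : E, p ∈ N ∧ ‖v‖ = 1 ∧ ∀ s ∈ Icc 0 ℓ, γ s = p + s • v) ∧
    infDist (γ ℓ) N = ℓ

/-- The separating set: the points joined to `N` by two `N`-segments that are distinct as maps on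
`[0, ℓ]` (two `N`-segments that end at `q` have the same length, the distance of `q` to `N`). -/
def Sep (N : Set E) : Set E :=
  {q | ∃ ℓ : ℝ, ∃ γ₁ γ₂ : ℝ → E, IsNSegment N ℓ γ₁ ∧ IsNSegment N ℓ γ₂ ∧ γ₁ ℓ = q ∧ γ₂ ℓ = q ∧
    ∃ s ∈ Icc 0 ℓ, γ₁ s ≠ γ₂ s}

/-- The vectors of the tangent cut locus that the normal exponential map sends to the separating
set. -/
def TangentSep (N : Set E) : Set (E × E) := {u | u ∈ TangentCut N ∧ nexp u ∈ Sep N}

/-! ### The curve -/

/-- The curve `(sin s, sin² s, cos s)`. -/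
noncomputable def crv (s : ℝ) : E := !₂[Real.sin s, Real.sin s ^ 2, Real.cos s]

/-- The closed curve `x² + w² = 1`, `y = x²`. -/
def C : Set E := {p | p 0 ^ 2 + p 2 ^ 2 = 1 ∧ p 1 = p 0 ^ 2}

lemma crv_contDiff : ContDiff ℝ ∞ crv := by
  unfold crv
  rw [contDiff_euclidean]
  intro i
  fin_cases i
  · simpa using Real.contDiff_sin
  · simpa using Real.contDiff_sin.pow 2
  · simpa using Real.contDiff_cos

lemma crv_periodic : Function.Periodic crv (2 * Real.pi) := by
  intro s
  simp [crv]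

lemma crv_mem (s : ℝ) : crv s ∈ C := by
  refine ⟨?_, ?_⟩ <;> simp [crv]


lemma crv_range : range crv = C := by
  apply Subset.antisymm
  · rintro _ ⟨s, rfl⟩
    exact crv_mem s
  · rintro p ⟨h1, h2⟩
    set z : ℂ := ⟨p 2, p 0⟩ with hz
    have hn : ‖z‖ = 1 := by
      rw [Complex.norm_def, Complex.normSq_mk]
      rw [show p 2 * p 2 + p 0 * p 0 = 1 by nlinarith]
      simp
    have hz0 : z ≠ 0 := by
      intro h
      rw [h] at hn
      simp at hn
    have hs : Real.sin z.arg = p 0 := by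
      rw [Complex.sin_arg, hn]; simp [hz]
    have hc : Real.cos z.arg = p 2 := by
      rw [Complex.cos_arg hz0, hn]; simp [hz]
    refine ⟨z.arg, ?_⟩
    ext i
    fin_cases i
    · simp [crv, hs]
    · simp [crv, hs, h2]
    · simp [crv, hc]

lemma crv_injOn : InjOn crv (Ico 0 (2 * Real.pi)) := by
  intro s hs t ht h
  have h0 : Real.sin s = Real.sin t := by
    have := congrArg (fun p : E => p 0) h
    simpa [crv] using this
  have h2 : Real.cos s = Real.cos t := by
    have := congrArg (fun p : E => p 2) h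
    simpa [crv] using this
  have hc : Real.cos (s - t) = 1 := by
    rw [Real.cos_sub, h0, h2]
    nlinarith [Real.sin_sq_add_cos_sq t]
  have := (Real.cos_eq_one_iff_of_lt_of_lt (x := s - t) (by linarith [hs.1, ht.2])
    (by linarith [hs.2, ht.1])).1 hc
  linarith

/-- Components of the derivative of a curve. -/
lemma deriv_comp {γ : ℝ → E} {s : ℝ} (h : DifferentiableAt ℝ γ s) (i : Fin 3) :
    HasDerivAt (fun r => γ r i) (deriv γ s i) s := by
  have := ((EuclideanSpace.proj i : E →L[ℝ] ℝ).hasFDerivAt (x := γ s)).comp_hasDerivAt s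
    h.hasDerivAt
  simpa [Function.comp_def] using this

lemma crv_deriv_ne (s : ℝ) : deriv crv s ≠ 0 := by
  intro h
  have hd : DifferentiableAt ℝ crv s := crv_contDiff.differentiable (by simp) s
  have h0 := deriv_comp hd 0
  have h2 := deriv_comp hd 2
  rw [h] at h0 h2
  have e0 : (fun r => crv r 0) = Real.sin := by
    ext r; simp [crv]
  have e2 : (fun r => crv r 2) = Real.cos := by
    ext r; simp [crv]
  rw [e0] at h0
  rw [e2] at h2
  have c0 := h0.unique (Real.hasDerivAt_sin s)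
  have c2 := h2.unique (Real.hasDerivAt_cos s)
  simp at c0 c2
  nlinarith [Real.sin_sq_add_cos_sq s]

lemma C_isSmoothClosedCurve : IsSmoothClosedCurve C :=
  ⟨crv, crv_contDiff, crv_periodic, crv_deriv_ne, crv_injOn, crv_range⟩

/-! ### Distances -/

lemma dist_sq (p q : E) : dist p q ^ 2 = (p 0 - q 0) ^ 2 + (p 1 - q 1) ^ 2 + (p 2 - q 2) ^ 2 := by
  rw [EuclideanSpace.dist_eq, Real.sq_sqrt (Finset.sum_nonneg fun _ _ => sq_nonneg _),
    Fin.sum_univ_three]
  simp [Real.dist_eq, sq_abs]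

lemma norm_sq (p : E) : ‖p‖ ^ 2 = (p 0) ^ 2 + (p 1) ^ 2 + (p 2) ^ 2 := by
  rw [EuclideanSpace.norm_eq, Real.sq_sqrt (Finset.sum_nonneg fun _ _ => sq_nonneg _),
    Fin.sum_univ_three]
  simp [sq_abs]

/-- The foot point. -/
noncomputable def x0 : E := !₂[0, 0, 1]

/-- The vectors `(0, t/2, t - 1)` at the foot point. -/
noncomputable def vt (t : ℝ) : E := !₂[0, t / 2, t - 1]

lemma x0_mem : x0 ∈ C := by
  constructor <;> simp [x0]

lemma vt_norm_sq (t : ℝ) : ‖vt t‖ ^ 2 = t ^ 2 / 4 + (1 - t) ^ 2 := by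
  rw [norm_sq]; simp [vt]; ring

lemma vt_norm_pos {t : ℝ} (ht : t < 1) : 0 < ‖vt t‖ := by
  rw [norm_pos_iff]
  intro h
  have := congrArg (fun p : E => p 2) h
  simp [vt] at this
  linarith

lemma key_dist {t : ℝ} {p : E} (hp : p ∈ C) :
    dist (x0 + vt t) p ^ 2 = ‖vt t‖ ^ 2 + p 0 ^ 4 + t * (p 2 - 1) ^ 2 := by
  obtain ⟨h1, h2⟩ := hp
  rw [dist_sq, vt_norm_sq]
  simp only [x0, vt, h2, PiLp.add_apply]
  simp
  have : p 0 ^ 2 = 1 - p 2 ^ 2 := by linarith
  linear_combination (1 - t) * this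

lemma infDist_qt {t : ℝ} (h0 : 0 ≤ t) : infDist (x0 + vt t) C = ‖vt t‖ := by
  apply le_antisymm
  · have := infDist_le_dist_of_mem (x := x0 + vt t) x0_mem
    simpa [dist_eq_norm] using this
  · rw [le_infDist ⟨x0, x0_mem⟩]
    intro p hp
    have := key_dist (t := t) hp
    have h4 : 0 ≤ p 0 ^ 4 := by positivity
    have h5 : 0 ≤ t * (p 2 - 1) ^ 2 := by positivity
    exact le_of_sq_le_sq (by linarith) dist_nonneg

/-- Beyond `x0 + vt t` the lines are not minimal. -/
lemma infDist_beyond {t s : ℝ} (h1 : t < 1) (hs : 1 < s) :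
    infDist (x0 + s • vt t) C < s * ‖vt t‖ := by
  set u : ℝ := (s - 1) / (4 + s) with hu
  have hu0 : 0 < u := div_pos (by linarith) (by linarith)
  have hu1 : u < 1 := by
    rw [hu, div_lt_one (by linarith)]; linarith
  have hus : u * (4 + s) = s - 1 := by
    rw [hu]; field_simp
  set x : ℝ := Real.sqrt (u * (2 - u)) with hx
  have hx2 : x ^ 2 = u * (2 - u) := Real.sq_sqrt (by nlinarith)
  set p : E := !₂[x, x ^ 2, 1 - u] with hp
  have hpC : p ∈ C := by
    constructor
    · simp [hp]; rw [hx2]; ring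
    · simp [hp]
  have hlt : dist (x0 + s • vt t) p < s * ‖vt t‖ := by
    apply lt_of_pow_lt_pow_left₀ 2 (by positivity)
    rw [mul_pow, vt_norm_sq, dist_sq]
    simp only [hp, x0, vt, PiLp.add_apply, PiLp.smul_apply]
    simp
    have e : x ^ 2 + (s * (t / 2) - x ^ 2) ^ 2 + (1 + s * (t - 1) - (1 - u)) ^ 2 -
        s ^ 2 * (t ^ 2 / 4 + (1 - t) ^ 2) = u * (2 - 2 * s + u * ((2 - u) ^ 2 + s * t)) := by
      rw [hx2]; ring
    have hneg : 2 - 2 * s + u * ((2 - u) ^ 2 + s * t) < 0 := by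
      have a1 : (2 - u) ^ 2 ≤ 4 := by nlinarith
      have a2 : s * t ≤ s := by nlinarith
      have a3 : u * ((2 - u) ^ 2 + s * t) ≤ u * (4 + s) := by
        apply mul_le_mul_of_nonneg_left (by linarith) hu0.le
      linarith
    have := mul_neg_of_pos_of_neg hu0 hneg
    linarith
  exact lt_of_le_of_lt (infDist_le_dist_of_mem hpC) hlt

/-- The unit vector in the direction of `vt t`. -/
noncomputable def et (t : ℝ) : E := ‖vt t‖⁻¹ • vt t

lemma et_norm {t : ℝ} (ht : t < 1) : ‖et t‖ = 1 := by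
  have := vt_norm_pos ht
  rw [et, norm_smul, norm_inv, norm_norm, inv_mul_cancel₀ this.ne']

lemma smul_et {t : ℝ} (ht : t < 1) : ‖vt t‖ • et t = vt t := by
  have := vt_norm_pos ht
  rw [et, smul_smul, mul_inv_cancel₀ this.ne', one_smul]

lemma isCutTime_et {t : ℝ} (h0 : 0 ≤ t) (h1 : t < 1) : IsCutTime C x0 (et t) ‖vt t‖ := by
  have hL := vt_norm_pos h1
  apply IsGreatest.isLUB
  constructor
  · refine ⟨hL.le, ?_⟩
    rw [smul_et h1]
    exact infDist_qt h0
  · rintro r ⟨hr0, hr⟩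
    by_contra hlt
    push Not at hlt
    have hs : 1 < r / ‖vt t‖ := by rwa [one_lt_div hL]
    have := infDist_beyond h1 hs
    have e : (r / ‖vt t‖) • vt t = r • et t := by
      rw [et, smul_smul]; rfl
    rw [e, hr, div_mul_cancel₀ _ hL.ne'] at this
    exact lt_irrefl _ this

lemma unitNormal_et {t : ℝ} (h1 : t < 1) : (x0, et t) ∈ UnitNormal C := by
  refine ⟨x0_mem, et_norm h1, ?_⟩
  intro γ hγ hN h0
  have hd : DifferentiableAt ℝ γ 0 := hγ.differentiable (by simp) 0
  have d0 := deriv_comp hd 0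
  have d1 := deriv_comp hd 1
  have d2 := deriv_comp hd 2
  have g0 : γ 0 0 = 0 := by rw [h0]; simp [x0]
  have g2 : γ 0 2 = 1 := by rw [h0]; simp [x0]
  have e1 : (fun r => γ r 1) = fun r => γ r 0 ^ 2 := by
    ext r; exact (hN r).2
  have e2 : (fun r => γ r 0 ^ 2 + γ r 2 ^ 2) = fun _ => (1 : ℝ) := by
    ext r; exact (hN r).1
  have k1 : deriv γ 0 1 = 0 := by
    rw [e1] at d1
    have := d1.unique (d0.fun_pow 2)
    rw [this, g0]; simp
  have k2 : deriv γ 0 2 = 0 := by
    have a := (d0.fun_pow 2).fun_add (d2.fun_pow 2)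
    rw [e2] at a
    have := a.unique (hasDerivAt_const (0 : ℝ) (1 : ℝ))
    rw [g0, g2] at this
    simpa using this
  have : ⟪deriv γ 0, et t⟫ = 0 := by
    rw [et, inner_smul_right, PiLp.inner_apply, Fin.sum_univ_three, k1, k2]
    simp [vt]
  exact this

lemma mem_tangentCut {t : ℝ} (h0 : 0 ≤ t) (h1 : t < 1) : (x0, vt t) ∈ TangentCut C :=
  ⟨et t, ‖vt t‖, unitNormal_et h1, isCutTime_et h0 h1, (smul_et h1).symm⟩

/-! ### The separating set -/

lemma foot_unique {t : ℝ} (h0 : 0 < t) {p : E} (hp : p ∈ C)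
    (hd : dist (x0 + vt t) p = ‖vt t‖) : p = x0 := by
  have h := key_dist (t := t) hp
  rw [hd] at h
  have h4 : 0 ≤ p 0 ^ 4 := by positivity
  have h5 : 0 ≤ t * (p 2 - 1) ^ 2 := by positivity
  have a : p 0 ^ 4 = 0 := by linarith
  have b : t * (p 2 - 1) ^ 2 = 0 := by linarith
  have a' : p 0 = 0 := by simpa using a
  have b' : p 2 - 1 = 0 := by
    rcases mul_eq_zero.1 b with h | h
    · exact absurd h h0.ne'
    · simpa using h
  obtain ⟨_, hp2⟩ := hp
  ext i
  fin_cases i
  · simp [x0, a']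
  · simp [x0, a', hp2]
  · simp [x0]; linarith

lemma not_mem_sep {t : ℝ} (h0 : 0 < t) (h1 : t < 1) : x0 + vt t ∉ Sep C := by
  rintro ⟨ℓ, γ₁, γ₂, ⟨hℓ, ⟨p₁, v₁, hp₁, hv₁, e₁⟩, d₁⟩, ⟨_, ⟨p₂, v₂, hp₂, hv₂, e₂⟩, d₂⟩, q₁, q₂,
    s, hs, hne⟩
  have hL := vt_norm_pos h1
  have hℓL : ℓ = ‖vt t‖ := by
    rw [← d₁, q₁, infDist_qt h0.le]
  have a₁ := e₁ ℓ ⟨hℓ, le_rfl⟩
  have a₂ := e₂ ℓ ⟨hℓ, le_rfl⟩
  rw [q₁] at a₁
  rw [q₂] at a₂
  have f₁ : p₁ = x0 := by
    apply foot_unique h0 hp₁
    rw [a₁, dist_eq_norm, add_sub_cancel_left, norm_smul, hv₁, hℓL]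
    simp
  have f₂ : p₂ = x0 := by
    apply foot_unique h0 hp₂
    rw [a₂, dist_eq_norm, add_sub_cancel_left, norm_smul, hv₂, hℓL]
    simp
  have hv : v₁ = v₂ := by
    have : ℓ • v₁ = ℓ • v₂ := by
      rw [f₁] at a₁
      rw [f₂] at a₂
      exact add_left_cancel (a₁.symm.trans a₂)
    exact smul_right_injective E (by rw [hℓL]; exact hL.ne') this
  apply hne
  rw [e₁ s hs, e₂ s hs, f₁, f₂, hv]

lemma zero_mem_sep : x0 + vt 0 ∈ Sep C := by
  have hz : x0 + vt 0 = 0 := by
    ext i; fin_cases i <;> simp [x0, vt]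
  have hd : infDist (0 : E) C = 1 := by
    rw [← hz, infDist_qt le_rfl]
    have := vt_norm_sq 0
    have hp := norm_nonneg (vt 0)
    nlinarith
  have hm : (!₂[0, 0, -1] : E) ∈ C := by
    constructor <;> simp
  refine ⟨1, fun s => !₂[0, 0, 1] + s • !₂[0, 0, -1], fun s => !₂[0, 0, -1] + s • !₂[0, 0, 1],
    ⟨zero_le_one, ⟨!₂[0, 0, 1], !₂[0, 0, -1], x0_mem, ?_, fun s _ => rfl⟩, ?_⟩,
    ⟨zero_le_one, ⟨!₂[0, 0, -1], !₂[0, 0, 1], hm, ?_, fun s _ => rfl⟩, ?_⟩, ?_, ?_, 0, ?_, ?_⟩
  · rw [EuclideanSpace.norm_eq, Fin.sum_univ_three]; simp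
  · have : (!₂[0, 0, 1] + (1 : ℝ) • !₂[0, 0, -1] : E) = 0 := by
      ext i; fin_cases i <;> simp
    beta_reduce
    rw [this]; exact hd
  · rw [EuclideanSpace.norm_eq, Fin.sum_univ_three]; simp
  · have : (!₂[0, 0, -1] + (1 : ℝ) • !₂[0, 0, 1] : E) = 0 := by
      ext i; fin_cases i <;> simp
    beta_reduce
    rw [this]; exact hd
  · rw [hz]; ext i; fin_cases i <;> simp
  · rw [hz]; ext i; fin_cases i <;> simp
  · simp
  · intro h
    have := congrArg (fun p : E => p 2) h
    simp at this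
    norm_num at this

/-! ### Limits -/

lemma vt_continuous : Continuous vt := by
  unfold vt
  fun_prop

lemma tendsto_pair : Filter.Tendsto (fun t : ℝ => (x0, vt t)) (𝓝[>] 0) (𝓝 (x0, vt 0)) := by
  have : Continuous (fun t : ℝ => (x0, vt t)) := continuous_const.prodMk vt_continuous
  exact (this.tendsto 0).mono_left nhdsWithin_le_nhds

lemma ev_small : ∀ᶠ t : ℝ in 𝓝[>] 0, 0 < t ∧ t < 1 := Ioo_mem_nhdsGT one_pos

lemma tangent_closure : (x0, vt 0) ∈ closure (TangentCut C \ TangentSep C) := by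
  apply mem_closure_of_tendsto tendsto_pair
  filter_upwards [ev_small] with t ht
  exact ⟨mem_tangentCut ht.1.le ht.2, fun h => not_mem_sep ht.1 ht.2 h.2⟩

lemma cut_closure : x0 + vt 0 ∈ closure (Cut C \ Sep C) := by
  have : Filter.Tendsto (fun t : ℝ => x0 + vt t) (𝓝[>] 0) (𝓝 (x0 + vt 0)) :=
    ((continuous_const.add vt_continuous).tendsto 0).mono_left nhdsWithin_le_nhds
  apply mem_closure_of_tendsto this
  filter_upwards [ev_small] with t ht
  exact ⟨⟨(x0, vt t), mem_tangentCut ht.1.le ht.2, rfl⟩, not_mem_sep ht.1 ht.2⟩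

/-- A relatively open subset of `A` contains no limit point of its complement in `A`. -/
lemma not_open_of_closure {X : Type*} [TopologicalSpace X] {A S : Set X} {a : X} (haA : a ∈ A)
    (haS : a ∈ S) (h : a ∈ closure (A \ S)) : ¬ IsOpen {x : A | (x : X) ∈ S} := by
  intro ho
  obtain ⟨U, hU, hUe⟩ := isOpen_induced_iff.1 ho
  have haU : a ∈ U := by
    have : (⟨a, haA⟩ : A) ∈ (Subtype.val ⁻¹' U : Set A) := by rw [hUe]; exact haS
    exact this
  obtain ⟨b, hbU, hbA, hbS⟩ := mem_closure_iff.1 h U hU haU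
  have : (⟨b, hbA⟩ : A) ∈ {x : A | (x : X) ∈ S} := by rw [← hUe]; exact hbU
  exact hbS this

/-- **Both questions of Bishop have a negative answer, already in Euclidean 3-space.**
There is a smooth simple closed curve `N` in Euclidean 3-space for which

* a point of the tangent separating set is a limit of points of the tangent cut locus outside it;
  the tangent separating set is not open in the tangent cut locus;
* a point of the separating set (and of the cut locus) is a limit of points of the cut locus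
  outside the separating set; the separating set is not open in the cut locus. -/
theorem result : ∃ N : Set E, IsSmoothClosedCurve N ∧
    (∃ u ∈ TangentSep N, u ∈ closure (TangentCut N \ TangentSep N)) ∧
    ¬ IsOpen {u : TangentCut N | (u : E × E) ∈ TangentSep N} ∧
    (∃ q ∈ Cut N ∩ Sep N, q ∈ closure (Cut N \ Sep N)) ∧
    ¬ IsOpen {q : Cut N | (q : E) ∈ Sep N} := by
  have hT : (x0, vt 0) ∈ TangentCut C := mem_tangentCut le_rfl one_pos
  have hTS : (x0, vt 0) ∈ TangentSep C := ⟨hT, zero_mem_sep⟩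
  have hC : x0 + vt 0 ∈ Cut C := ⟨(x0, vt 0), hT, rfl⟩
  exact ⟨C, C_isSmoothClosedCurve, ⟨_, hTS, tangent_closure⟩,
    not_open_of_closure hT hTS tangent_closure,
    ⟨_, ⟨hC, zero_mem_sep⟩, cut_closure⟩,
    not_open_of_closure hC zero_mem_sep cut_closure⟩

end Pool.Agent.Results.MP_402458_gt.SeparatingSetNotOpen
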